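import Pool.Agent.Work.MP_1c7b0d_cp.Interface

set_option autoImplicit false

namespace Pool.CP3

open MeasureTheory
open scoped Pointwise

theorem p_CC : S_CC := by
  intro m r hr
  have hr0 : 0 < r := by linarith
  have hinv : 1 / r < 1 := by
    rw [div_lt_one hr0]
    exact hr
  have hc : 0 < 1 - 1 / r := by linarith
  have h1 : volume ((1 - 1 / r) • T m r) =
      ENNReal.ofReal ((1 - 1 / r) ^ (m + 1)) * volume (T m r) := by
    rw [Measure.addHaar_smul, Module.finrank_fin_fun, abs_of_pos (pow_pos hc _)]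
  have h2 : volume ((fun x : Fin (m + 1) → ℝ => x + Pi.single 0 1) ⁻¹' Cp m r) =
      volume (Cp m r) := measure_preimage_add_right volume _ _
  rw [← h1, ← h2]
  refine measure_mono ?_
  rintro _ ⟨x, ⟨hx, hxs⟩, rfl⟩
  change (1 - 1 / r) • x + Pi.single 0 1 ∈ Cp m r
  refine ⟨fun i => ?_, ?_, ?_⟩
  · have h3 : 0 < (1 - 1 / r) * x i := mul_pos hc (hx i)
    have h4 : (0 : ℝ) ≤ (Pi.single 0 1 : Fin (m + 1) → ℝ) i := by
      rw [Pi.single_apply]
      split_ifs <;> norm_num
    change 0 < (1 - 1 / r) * x i + (Pi.single 0 1 : Fin (m + 1) → ℝ) i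
    linarith
  · have h3 : ∑ i, ((1 - 1 / r) • x + Pi.single 0 1 : Fin (m + 1) → ℝ) i =
        (1 - 1 / r) * ∑ i, x i + 1 := by
      simp only [Pi.add_apply, Pi.smul_apply, smul_eq_mul]
      rw [Finset.sum_add_distrib, ← Finset.mul_sum, Finset.sum_pi_single']
      simp
    rw [h3]
    have h4 : (1 - 1 / r) * ∑ i, x i ≤ (1 - 1 / r) * r := mul_le_mul_of_nonneg_left hxs hc.le
    have h5 : (1 - 1 / r) * r = r - 1 := by
      field_simp
    linarith
  · change 1 < (1 - 1 / r) * x 0 + (Pi.single 0 1 : Fin (m + 1) → ℝ) 0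
    rw [Pi.single_eq_same]
    have h3 : 0 < (1 - 1 / r) * x 0 := mul_pos hc (hx 0)
    linarith

end Pool.CP3
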