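import Pool.Agent.Work.MP_1c7b0d_cp.Interface

/-! MP_1c7b0d_gt, the regular cross-polytope, block DET. -/

set_option autoImplicit false

namespace Pool.CP3

open MeasureTheory

theorem p_DET : S_DET := by
  intro m hm
  have h1 : (1 : Matrix (Fin (m + 1)) (Fin (m + 1)) ℝ) - Matrix.of (fun _ _ => (1 / 2 : ℝ)) =
      1 + Matrix.replicateCol Unit (fun _ : Fin (m + 1) => (-(1 / 2) : ℝ)) *
        Matrix.replicateRow Unit (fun _ : Fin (m + 1) => (1 : ℝ)) := by
    ext i j
    rw [Matrix.sub_apply, Matrix.add_apply, Matrix.mul_apply]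
    simp [Matrix.replicateCol, Matrix.replicateRow, sub_eq_add_neg]
  rw [h1, Matrix.det_one_add_replicateCol_mul_replicateRow]
  have h2 : (1 : ℝ) + (fun _ : Fin (m + 1) => (1 : ℝ)) ⬝ᵥ (fun _ : Fin (m + 1) => (-(1 / 2) : ℝ)) =
      -(((m : ℝ) - 1) / 2) := by
    simp [dotProduct]
    ring
  have hm' : (2 : ℝ) ≤ m := by exact_mod_cast hm
  rw [h2, abs_neg, abs_of_nonneg (by linarith)]

end Pool.CP3
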