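import Pool.Agent.Work.MP_1c7b0d_cp.Interface

/-! Block DET, second copy (helper81). -/

set_option autoImplicit false

namespace Pool.CP3

open MeasureTheory

theorem p_DETx : S_DET := by
  intro m hm
  have hm2 : (2 : ℝ) ≤ (m : ℝ) := by exact_mod_cast hm
  have h1 : (1 : Matrix (Fin (m + 1)) (Fin (m + 1)) ℝ) - Matrix.of (fun _ _ => (1 / 2 : ℝ)) =
      1 + Matrix.replicateCol Unit (fun _ : Fin (m + 1) => (-1 / 2 : ℝ)) *
        Matrix.replicateRow Unit (fun _ : Fin (m + 1) => (1 : ℝ)) := by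
    rw [sub_eq_add_neg]
    congr 1
    ext i j
    rw [Matrix.mul_apply, Matrix.neg_apply, Matrix.of_apply]
    simp
    norm_num
  rw [h1, Matrix.det_one_add_replicateCol_mul_replicateRow]
  have h2 : (fun _ : Fin (m + 1) => (1 : ℝ)) ⬝ᵥ (fun _ : Fin (m + 1) => (-1 / 2 : ℝ)) =
      -(((m : ℝ) + 1) / 2) := by
    unfold dotProduct
    rw [Finset.sum_const, Finset.card_univ, Fintype.card_fin, nsmul_eq_mul]
    push_cast
    ring
  rw [h2, abs_of_nonpos (by linarith)]
  ring

end Pool.CP3
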