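import Pool.Agent.Work.MP_1c7b0d_cp.Interface

/-! Block EQ (second copy, helper25): the normals of the cross-polytope. -/

set_option autoImplicit false

namespace Pool.CP3

open MeasureTheory

theorem EQx_inner {d : ℕ} (s : Fin d → ℝ) (x : EuclideanSpace ℝ (Fin d)) :
    inner ℝ (WithLp.toLp 2 s) x = ∑ i, s i * x i := by
  rw [PiLp.inner_apply]
  refine Finset.sum_congr rfl fun i _ => ?_
  simp [mul_comm]

theorem p_EQx : S_EQ := by
  classical
  intro d hd
  have hd0 : (0 : ℝ) < d := by exact_mod_cast hd
  have hs : 0 < Real.sqrt d := Real.sqrt_pos.2 hd0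
  have hcard : Fintype.card (Fin d → Bool) = 2 ^ d := by simp
  let e : (Fin d → Bool) ≃ Fin (2 ^ d) := Fintype.equivFinOfCardEq hcard
  obtain ⟨v, hv⟩ : ∃ v : Fin (2 ^ d) → Fin d → ℝ, ∀ j i, v j i =
      (if e.symm j i then 1 else -1) / Real.sqrt d := ⟨fun j i => _, fun j i => rfl⟩
  refine ⟨fun j => WithLp.toLp 2 (v j), ?_, ?_, ?_⟩
  · intro j j' hjj
    have h1 : v j = v j' := by
      have := congrArg (fun t : EuclideanSpace ℝ (Fin d) => (WithLp.ofLp t : Fin d → ℝ)) hjj
      simpa using this
    apply e.symm.injective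
    funext i
    have h2 := congrFun h1 i
    rw [hv, hv, div_left_inj' hs.ne'] at h2
    cases h3 : e.symm j i <;> cases h4 : e.symm j' i <;> simp [h3, h4] at h2 ⊢ <;> norm_num at h2
  · intro j
    rw [EuclideanSpace.norm_eq]
    have h1 : ∀ i, ‖(WithLp.toLp 2 (v j) : EuclideanSpace ℝ (Fin d)) i‖ ^ 2 = 1 / d := by
      intro i
      show ‖v j i‖ ^ 2 = 1 / d
      rw [hv, Real.norm_eq_abs, sq_abs, div_pow, Real.sq_sqrt hd0.le]
      cases e.symm j i <;> simp
    rw [Finset.sum_congr rfl fun i _ => h1 i, Finset.sum_const, Finset.card_univ,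
      Fintype.card_fin, nsmul_eq_mul, mul_one_div_cancel hd0.ne', Real.sqrt_one]
  · ext x
    constructor
    · intro hx
      have h1 := hx (e fun i => decide (0 ≤ x i))
      rw [EQx_inner] at h1
      have h2 : ∑ i, v (e fun i => decide (0 ≤ x i)) i * x i = (∑ i, |x i|) / Real.sqrt d := by
        rw [Finset.sum_div]
        refine Finset.sum_congr rfl fun i _ => ?_
        rw [hv, Equiv.symm_apply_apply]
        by_cases h : 0 ≤ x i
        · rw [abs_of_nonneg h]
          simp only [h, decide_true, if_true]
          ring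
        · rw [abs_of_neg (not_le.1 h)]
          simp only [h, decide_false, Bool.false_eq_true, if_false]
          ring
      rw [h2, div_le_one hs] at h1
      exact h1
    · intro hx j
      have hx' : ∑ i, |x i| ≤ Real.sqrt d := hx
      rw [EQx_inner]
      have h2 : ∑ i, v j i * x i ≤ (∑ i, |x i|) / Real.sqrt d := by
        rw [Finset.sum_div]
        refine Finset.sum_le_sum fun i _ => ?_
        rw [hv, div_mul_eq_mul_div]
        apply div_le_div_of_nonneg_right _ hs.le
        cases e.symm j i
        · simp only [Bool.false_eq_true, if_false]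
          have := neg_abs_le (x i)
          linarith
        · simp only [if_true]
          have := le_abs_self (x i)
          linarith
      exact h2.trans ((div_le_one hs).2 hx')

end Pool.CP3
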