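import Pool.Agent.Work.MP_1c7b0d_cp.Interface

set_option autoImplicit false

namespace Pool.CP3

open MeasureTheory

/-- the sign vector -/
noncomputable def EQz_v (d : ℕ) (b : Fin d → Bool) : EuclideanSpace ℝ (Fin d) :=
  WithLp.toLp 2 (fun i => (if b i then (1 : ℝ) else -1) / Real.sqrt d)

theorem EQz_norm (d : ℕ) (hd : 1 ≤ d) (b : Fin d → Bool) : ‖EQz_v d b‖ = 1 := by
  have hd0 : (0 : ℝ) < d := by exact_mod_cast hd
  rw [EuclideanSpace.norm_eq]
  have h : ∀ i, ‖(EQz_v d b) i‖ ^ 2 = 1 / d := by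
    intro i
    have : (EQz_v d b) i = (if b i then (1 : ℝ) else -1) / Real.sqrt d := rfl
    rw [this, Real.norm_eq_abs, sq_abs, div_pow, Real.sq_sqrt hd0.le]
    split_ifs <;> norm_num
  rw [Finset.sum_congr rfl (fun i _ => h i)]
  rw [Finset.sum_const, Finset.card_univ, Fintype.card_fin, nsmul_eq_mul]
  rw [mul_one_div_cancel hd0.ne', Real.sqrt_one]

theorem EQz_inner (d : ℕ) (b : Fin d → Bool) (x : EuclideanSpace ℝ (Fin d)) :
    inner ℝ (EQz_v d b) x = (∑ i, (if b i then x i else - x i)) / Real.sqrt d := by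
  rw [PiLp.inner_apply, Finset.sum_div]
  refine Finset.sum_congr rfl fun i _ => ?_
  have : (EQz_v d b) i = (if b i then (1 : ℝ) else -1) / Real.sqrt d := rfl
  rw [this]
  simp only [RCLike.inner_apply, conj_trivial]
  split_ifs <;> ring

theorem EQz_inj (d : ℕ) (hd : 1 ≤ d) : Function.Injective (EQz_v d) := by
  intro b c h
  have hd0 : (0 : ℝ) < d := by exact_mod_cast hd
  have hs : (0 : ℝ) < Real.sqrt d := Real.sqrt_pos.2 hd0
  funext i
  have h1 : (EQz_v d b) i = (EQz_v d c) i := by rw [h]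
  have h2 : (if b i then (1 : ℝ) else -1) / Real.sqrt d = (if c i then (1 : ℝ) else -1) / Real.sqrt d := h1
  rw [div_left_inj' hs.ne'] at h2
  cases hb : b i <;> cases hc : c i <;> simp [hb, hc] at h2 ⊢ <;> norm_num at h2

theorem EQz_abs (d : ℕ) (x : Fin d → ℝ) (r : ℝ) :
    (∀ b : Fin d → Bool, ∑ i, (if b i then x i else - x i) ≤ r) ↔ ∑ i, |x i| ≤ r := by
  constructor
  · intro h
    refine le_trans (le_of_eq ?_) (h (fun i => decide (0 ≤ x i)))
    refine Finset.sum_congr rfl fun i _ => ?_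
    by_cases hx : 0 ≤ x i
    · simp [hx, abs_of_nonneg hx]
    · simp [hx, abs_of_neg (not_le.1 hx)]
  · intro h b
    refine le_trans (Finset.sum_le_sum fun i _ => ?_) h
    split_ifs
    · exact le_abs_self _
    · exact neg_le_abs _

theorem p_EQ : S_EQ := by
  intro d hd
  have hd0 : (0 : ℝ) < d := by exact_mod_cast hd
  have hs : (0 : ℝ) < Real.sqrt d := Real.sqrt_pos.2 hd0
  have hcard : Fintype.card (Fin d → Bool) = 2 ^ d := by simp
  let e : (Fin d → Bool) ≃ Fin (2 ^ d) := Fintype.equivFinOfCardEq hcard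
  refine ⟨fun j => EQz_v d (e.symm j), (EQz_inj d hd).comp e.symm.injective,
    fun j => EQz_norm d hd _, ?_⟩
  ext x
  simp only [Pool.Agent.Work.MP_1c7b0d_gt.circ, Set.mem_setOf_eq, EQz_inner]
  rw [← EQz_abs d x (Real.sqrt d)]
  constructor
  · intro h b
    have := h (e b)
    rw [e.symm_apply_apply, div_le_one hs] at this
    exact this
  · intro h j
    rw [div_le_one hs]
    exact h _

end Pool.CP3
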