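import Pool.Agent.Work.MP_1c7b0d_cp.Interface

set_option autoImplicit false

/-! Block FL (helper93): changes of signs preserve the volume. -/

namespace Pool.CP3

open MeasureTheory

theorem FL_one (b : Bool) :
    MeasurePreserving (fun x : ℝ => if b then x else -x) volume volume := by
  cases b
  · simpa using Measure.measurePreserving_neg (volume : Measure ℝ)
  · exact MeasurePreserving.id (volume : Measure ℝ)

theorem p_FL : S_FL := by
  intro m e
  exact volume_preserving_pi (fun i : Fin (m + 1) => FL_one (e i))

end Pool.CP3
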