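import Pool.Agent.Work.MP_1c7b0d_cp.Interface

set_option autoImplicit false

namespace Pool.CP3

open MeasureTheory

theorem p_MLx (hRR : S_RR) (hCC : S_CC) (hSG : S_SG) (hNU : S_NU) (hPO : S_PO) : S_ML := by
  intro m hm
  have hm' : (4 : ℝ) ≤ m := by exact_mod_cast hm
  obtain ⟨r, hr⟩ : ∃ r, r = Real.sqrt ((m : ℝ) + 1) := ⟨_, rfl⟩
  have h4 := hNU m hm
  rw [← hr] at h4 ⊢
  have hr1 : 1 < r := by
    rw [hr, Real.lt_sqrt (by norm_num)]
    linarith
  obtain ⟨hT0, hT1, -⟩ := hPO m r (by linarith)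
  have h1 := hRR m r (by omega) (by linarith)
  have h2 := hCC m r hr1
  have h3 := hSG m r
  have hpos : 0 < (2 : ℝ) ^ m * (1 - 1 / r) ^ (m + 1) :=
    lt_trans (div_pos two_pos (by linarith)) h4
  have h5 : ENNReal.ofReal (2 / ((m : ℝ) - 1)) * volume (T m r) <
      ENNReal.ofReal (2 ^ m * (1 - 1 / r) ^ (m + 1)) * volume (T m r) := by
    rw [mul_comm _ (volume (T m r)), mul_comm _ (volume (T m r))]
    exact ENNReal.mul_lt_mul_right hT0.ne' hT1.ne ((ENNReal.ofReal_lt_ofReal_iff hpos).2 h4)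
  have h6 : ENNReal.ofReal (2 ^ m * (1 - 1 / r) ^ (m + 1)) * volume (T m r) =
      2 ^ m * (ENNReal.ofReal ((1 - 1 / r) ^ (m + 1)) * volume (T m r)) := by
    rw [ENNReal.ofReal_mul (by positivity), ENNReal.ofReal_pow (by norm_num), mul_assoc]
    norm_num
  calc volume (R m r) ≤ ENNReal.ofReal (2 / ((m : ℝ) - 1)) * volume (T m r) := h1
    _ < ENNReal.ofReal (2 ^ m * (1 - 1 / r) ^ (m + 1)) * volume (T m r) := h5
    _ = 2 ^ m * (ENNReal.ofReal ((1 - 1 / r) ^ (m + 1)) * volume (T m r)) := h6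
    _ ≤ 2 ^ m * volume (Cp m r) := by gcongr
    _ ≤ volume (C m r) := h3

end Pool.CP3
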