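import Pool.Agent.Work.MP_1c7b0d_cp.Interface

set_option autoImplicit false

namespace Pool.CP3

open MeasureTheory

theorem p_ML (hRR : S_RR) (hCC : S_CC) (hSG : S_SG) (hNU : S_NU) (hPO : S_PO) : S_ML := by
  intro m hm
  have hm4 : (4 : ℝ) ≤ m := by exact_mod_cast hm
  set r := Real.sqrt ((m : ℝ) + 1) with hr
  have hr1 : 1 < r := by
    rw [hr]
    rw [Real.lt_sqrt (by norm_num)]
    linarith
  have hr0 : 0 < r := by linarith
  obtain ⟨hT0, hT1, -⟩ := hPO m r hr0
  have h1 := hRR m r (by omega) hr0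
  have h2 := hCC m r hr1
  have h3 := hSG m r
  have h4 := hNU m hm
  have h5 : ENNReal.ofReal (2 / ((m : ℝ) - 1)) * volume (T m r) <
      ENNReal.ofReal (2 ^ m * (1 - 1 / r) ^ (m + 1)) * volume (T m r) := by
    refine ENNReal.mul_lt_mul_left hT0.ne' hT1.ne ?_
    rw [ENNReal.ofReal_lt_ofReal_iff_of_nonneg]
    · exact h4
    · exact div_nonneg (by norm_num) (by linarith)
  have h6 : ENNReal.ofReal (2 ^ m * (1 - 1 / r) ^ (m + 1)) =
      (2 : ENNReal) ^ m * ENNReal.ofReal ((1 - 1 / r) ^ (m + 1)) := by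
    rw [ENNReal.ofReal_mul (by positivity), ENNReal.ofReal_pow (by norm_num)]
    norm_num
  calc volume (R m r) ≤ _ := h1
    _ < _ := h5
    _ = (2 : ENNReal) ^ m * (ENNReal.ofReal ((1 - 1 / r) ^ (m + 1)) * volume (T m r)) := by
      rw [h6, mul_assoc]
    _ ≤ (2 : ENNReal) ^ m * volume (Cp m r) := by gcongr
    _ ≤ volume (C m r) := h3

end Pool.CP3
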