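import Pool.Agent.Work.MP_1c7b0d_cp.Interface

set_option autoImplicit false

namespace Pool.CP3

open MeasureTheory

/-- block NU -/
theorem p_NU : S_NU := by
  intro m hm
  rcases eq_or_lt_of_le hm with h | h
  · subst h
    have hr : (2236 / 1000 : ℝ) < Real.sqrt (((4 : ℕ) : ℝ) + 1) := by
      rw [Real.lt_sqrt (by norm_num)]
      norm_num
    generalize Real.sqrt (((4 : ℕ) : ℝ) + 1) = y at hr ⊢
    have hy : 0 < y := lt_trans (by norm_num) hr
    have h1 : 1 / y < 4473 / 10000 := by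
      rw [div_lt_iff₀ hy]
      nlinarith
    have h2 : (5527 / 10000 : ℝ) ≤ 1 - 1 / y := by linarith
    have h3 : (5527 / 10000 : ℝ) ^ (4 + 1) ≤ (1 - 1 / y) ^ (4 + 1) :=
      pow_le_pow_left₀ (by norm_num) h2 _
    have h4 : (5 / 100 : ℝ) < (5527 / 10000 : ℝ) ^ (4 + 1) := by norm_num
    have h5 : (2 : ℝ) / (((4 : ℕ) : ℝ) - 1) = 2 / 3 := by norm_num
    have h6 : (2 : ℝ) ^ 4 = 16 := by norm_num
    rw [h5, h6]
    linarith
  · have hm5 : (5 : ℝ) ≤ m := by exact_mod_cast h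
    have hr : (2 : ℝ) < Real.sqrt ((m : ℝ) + 1) := by
      rw [Real.lt_sqrt (by norm_num)]
      linarith
    have h1 : 1 / Real.sqrt ((m : ℝ) + 1) < 1 / 2 := one_div_lt_one_div_of_lt (by norm_num) hr
    have h2 : (1 / 2 : ℝ) < 1 - 1 / Real.sqrt ((m : ℝ) + 1) := by linarith
    have h3 : (1 / 2 : ℝ) ^ (m + 1) < (1 - 1 / Real.sqrt ((m : ℝ) + 1)) ^ (m + 1) :=
      pow_lt_pow_left₀ h2 (by norm_num) (by omega)
    have h4 : (2 : ℝ) ^ m * (1 / 2) ^ (m + 1) = 1 / 2 := by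
      rw [pow_succ, ← mul_assoc, ← mul_pow]
      norm_num
    have h5 : 2 / ((m : ℝ) - 1) ≤ 1 / 2 := by
      rw [div_le_div_iff₀ (by linarith) (by norm_num)]
      linarith
    have h6 : (2 : ℝ) ^ m * (1 / 2) ^ (m + 1) <
        2 ^ m * (1 - 1 / Real.sqrt ((m : ℝ) + 1)) ^ (m + 1) :=
      mul_lt_mul_of_pos_left h3 (by positivity)
    linarith

end Pool.CP3
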