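import Pool.Agent.Work.MP_1c7b0d_cp.Interface

set_option autoImplicit false

namespace Pool.CP3

open MeasureTheory

theorem p_NUL : S_NUL := by
  intro m r
  have h0 : ∀ i : Fin (m + 1), volume {x : Fin (m + 1) → ℝ | x i = 0} = 0 := by
    intro i
    rw [volume_pi]
    exact Measure.pi_hyperplane (fun _ : Fin (m + 1) => (volume : Measure ℝ)) i 0
  have h1 : {x : Fin (m + 1) → ℝ | (∀ i, 0 ≤ x i) ∧ ∑ i, x i ≤ r} ⊆
      T m r ∪ ⋃ i : Fin (m + 1), {x : Fin (m + 1) → ℝ | x i = 0} := by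
    rintro x ⟨hx, hs⟩
    by_cases h : ∀ i, 0 < x i
    · exact Or.inl ⟨h, hs⟩
    · push Not at h
      obtain ⟨i, hi⟩ := h
      exact Or.inr (Set.mem_iUnion.2 ⟨i, le_antisymm hi (hx i)⟩)
  calc volume {x : Fin (m + 1) → ℝ | (∀ i, 0 ≤ x i) ∧ ∑ i, x i ≤ r}
      ≤ volume (T m r ∪ ⋃ i : Fin (m + 1), {x : Fin (m + 1) → ℝ | x i = 0}) := measure_mono h1
    _ ≤ volume (T m r) + volume (⋃ i : Fin (m + 1), {x : Fin (m + 1) → ℝ | x i = 0}) :=
        measure_union_le _ _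
    _ = volume (T m r) := by
        rw [measure_iUnion_null h0, add_zero]

end Pool.CP3
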