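import Pool.Agent.Work.MP_1c7b0d_cp.Interface

/-! MP_1c7b0d_gt, the regular cross-polytope, block PO. -/

set_option autoImplicit false

namespace Pool.CP3

open MeasureTheory

theorem PO_A (m : ℕ) (r : ℝ) (hr : 0 < r) : A m r ⊆ Metric.closedBall 0 r := by
  intro x hx
  rw [mem_closedBall_zero_iff, pi_norm_le_iff_of_nonneg hr.le]
  intro i
  rw [Real.norm_eq_abs]
  exact (Finset.single_le_sum (f := fun i => |x i|) (fun j _ => abs_nonneg (x j))
    (Finset.mem_univ i)).trans hx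

theorem PO_T (m : ℕ) (r : ℝ) : T m r ⊆ A m r := by
  intro x hx
  show ∑ i, |x i| ≤ r
  rw [Finset.sum_congr rfl fun i _ => abs_of_pos (hx.1 i)]
  exact hx.2

theorem PO_box (m : ℕ) (r : ℝ) :
    Set.pi Set.univ (fun _ : Fin (m + 1) => Set.Ioo (0 : ℝ) (r / (m + 1))) ⊆ T m r := by
  intro x hx
  have h : ∀ i, 0 < x i ∧ x i < r / (m + 1) := fun i => hx i (Set.mem_univ i)
  refine ⟨fun i => (h i).1, ?_⟩
  calc ∑ i, x i ≤ ∑ _i : Fin (m + 1), r / (m + 1) := Finset.sum_le_sum fun i _ => (h i).2.le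
    _ = r := by
      rw [Finset.sum_const, Finset.card_univ, Fintype.card_fin, nsmul_eq_mul]
      push_cast
      field_simp

theorem p_PO : S_PO := by
  intro m r hr
  have hA : volume (A m r) < ⊤ :=
    (measure_mono (PO_A m r hr)).trans_lt measure_closedBall_lt_top
  refine ⟨?_, (measure_mono (PO_T m r)).trans_lt hA, hA⟩
  have hpos : 0 < r / ((m : ℝ) + 1) := by positivity
  refine lt_of_lt_of_le (IsOpen.measure_pos volume
    (isOpen_set_pi Set.finite_univ fun _ _ => isOpen_Ioo) ?_) (measure_mono (PO_box m r))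
  exact ⟨fun _ => r / ((m : ℝ) + 1) / 2, fun i _ => ⟨by positivity, by linarith⟩⟩

end Pool.CP3
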