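import Pool.Agent.Work.MP_1c7b0d_cp.Interface

/-! Block RR (helper81). -/

set_option autoImplicit false

namespace Pool.CP3

open MeasureTheory

/-- the matrix of the linear part -/
noncomputable def RR_M (m : ℕ) : Matrix (Fin (m + 1)) (Fin (m + 1)) ℝ :=
  (1 : Matrix (Fin (m + 1)) (Fin (m + 1)) ℝ) - Matrix.of (fun _ _ => (1 / 2 : ℝ))

theorem RR_apply (m : ℕ) (x : Fin (m + 1) → ℝ) (i : Fin (m + 1)) :
    Matrix.toLin' (RR_M m) x i = x i - (∑ j, x j) / 2 := by
  rw [Matrix.toLin'_apply]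
  unfold RR_M
  rw [Matrix.sub_mulVec, Matrix.one_mulVec, Pi.sub_apply]
  congr 1
  show ∑ j, (1 / 2 : ℝ) * x j = _
  rw [← Finset.mul_sum]
  ring

theorem p_RR (hDET : S_DET) (hNUL : S_NUL) : S_RR := by
  intro m r hm hr
  have hm2 : (2 : ℝ) ≤ (m : ℝ) := by exact_mod_cast hm
  have hm1 : (0 : ℝ) < (m : ℝ) - 1 := by linarith
  have h1 : volume (Matrix.toLin' (RR_M m) '' (R m r)) =
      ENNReal.ofReal (((m : ℝ) - 1) / 2) * volume (R m r) := by
    rw [Measure.addHaar_image_linearMap, LinearMap.det_toLin']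
    have h2 : |(RR_M m).det| = ((m : ℝ) - 1) / 2 := hDET m hm
    rw [h2]
  have h3 : Matrix.toLin' (RR_M m) '' (R m r) ⊆
      (fun y : Fin (m + 1) → ℝ => y + fun _ => r / 2) ⁻¹'
        {x : Fin (m + 1) → ℝ | (∀ i, 0 ≤ x i) ∧ ∑ i, x i ≤ r} := by
    rintro y ⟨x, ⟨hx1, hx2⟩, rfl⟩
    show (∀ i, 0 ≤ Matrix.toLin' (RR_M m) x i + r / 2) ∧
      ∑ i, (Matrix.toLin' (RR_M m) x i + r / 2) ≤ r
    constructor
    · intro i
      rw [RR_apply]
      have h := hx2 i
      linarith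
    · have h4 : ∑ i, (Matrix.toLin' (RR_M m) x i + r / 2) =
          (∑ i, x i) - ((m : ℝ) + 1) * ((∑ i, x i) / 2) + ((m : ℝ) + 1) * (r / 2) := by
        have h5 : ∀ i ∈ (Finset.univ : Finset (Fin (m + 1))),
            Matrix.toLin' (RR_M m) x i + r / 2 = x i - (∑ j, x j) / 2 + r / 2 := by
          intro i _
          rw [RR_apply]
        rw [Finset.sum_congr rfl h5, Finset.sum_add_distrib, Finset.sum_sub_distrib, Finset.sum_const,
          Finset.sum_const, Finset.card_univ, Fintype.card_fin, nsmul_eq_mul, nsmul_eq_mul]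
        push_cast
        ring
      rw [h4]
      nlinarith
  have h6 : volume (Matrix.toLin' (RR_M m) '' (R m r)) ≤ volume (T m r) := by
    refine (measure_mono h3).trans ?_
    rw [measure_preimage_add_right]
    exact hNUL m r
  rw [h1] at h6
  have h7 : ENNReal.ofReal (2 / ((m : ℝ) - 1)) * ENNReal.ofReal (((m : ℝ) - 1) / 2) = 1 := by
    rw [← ENNReal.ofReal_mul (by positivity)]
    have h8 : 2 / ((m : ℝ) - 1) * (((m : ℝ) - 1) / 2) = 1 := by
      field_simp
    rw [h8, ENNReal.ofReal_one]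
  calc volume (R m r) = ENNReal.ofReal (2 / ((m : ℝ) - 1)) *
        (ENNReal.ofReal (((m : ℝ) - 1) / 2) * volume (R m r)) := by
        rw [← mul_assoc, h7, one_mul]
    _ ≤ ENNReal.ofReal (2 / ((m : ℝ) - 1)) * volume (T m r) := by gcongr

end Pool.CP3
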