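import Pool.Agent.Work.MP_1c7b0d_cp.Interface

set_option autoImplicit false

namespace Pool.CP3

open MeasureTheory

theorem p_RRx (hDET : S_DET) (hNUL : S_NUL) : S_RR := by
  intro m r hm hr
  have hm1 : (0 : ℝ) < (m : ℝ) - 1 := by
    have : (2 : ℝ) ≤ (m : ℝ) := by exact_mod_cast hm
    linarith
  set M : Matrix (Fin (m + 1)) (Fin (m + 1)) ℝ :=
    (1 : Matrix (Fin (m + 1)) (Fin (m + 1)) ℝ) - Matrix.of (fun _ _ => (1 / 2 : ℝ)) with hM
  have hL : ∀ (x : Fin (m + 1) → ℝ) (i : Fin (m + 1)),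
      Matrix.toLin' M x i = x i - (∑ j, x j) / 2 := by
    intro x i
    rw [Matrix.toLin'_apply, hM, Matrix.sub_mulVec, Matrix.one_mulVec, Pi.sub_apply]
    congr 1
    simp only [Matrix.mulVec, dotProduct, Matrix.of_apply]
    rw [← Finset.mul_sum]
    ring
  have h1 : volume ((Matrix.toLin' M) '' (R m r)) =
      ENNReal.ofReal (((m : ℝ) - 1) / 2) * volume (R m r) := by
    rw [Measure.addHaar_image_linearMap, LinearMap.det_toLin', hDET m hm]
  have hsub : (Matrix.toLin' M) '' (R m r) ⊆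
      (fun z : Fin (m + 1) → ℝ => z + (fun _ => r / 2)) ⁻¹'
        {x : Fin (m + 1) → ℝ | (∀ i, 0 ≤ x i) ∧ ∑ i, x i ≤ r} := by
    rintro _ ⟨x, ⟨hx1, hx2⟩, rfl⟩
    refine ⟨fun i => ?_, ?_⟩
    · have := hx2 i
      simp only [Pi.add_apply, hL]
      linarith
    · simp only [Pi.add_apply, hL]
      rw [Finset.sum_add_distrib, Finset.sum_sub_distrib]
      simp only [Finset.sum_const, Finset.card_univ, Fintype.card_fin, nsmul_eq_mul]
      push_cast
      nlinarith [mul_pos hm1 (sub_pos.2 hx1)]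
  have h2 : ENNReal.ofReal (((m : ℝ) - 1) / 2) * volume (R m r) ≤ volume (T m r) := by
    rw [← h1]
    refine (measure_mono hsub).trans ?_
    rw [measure_preimage_add_right]
    exact hNUL m r
  calc volume (R m r) = ENNReal.ofReal (2 / ((m : ℝ) - 1)) *
        (ENNReal.ofReal (((m : ℝ) - 1) / 2) * volume (R m r)) := by
        rw [← mul_assoc, ← ENNReal.ofReal_mul (by positivity)]
        have : 2 / ((m : ℝ) - 1) * (((m : ℝ) - 1) / 2) = 1 := by
          field_simp
        rw [this, ENNReal.ofReal_one, one_mul]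
    _ ≤ _ := by gcongr

end Pool.CP3
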