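import Pool.Agent.Work.MP_1c7b0d_cp.Interface

/-! Block SG (helper35). -/

set_option autoImplicit false

namespace Pool.CP3

open MeasureTheory

/-- signs -/
def SG_e {m : ℕ} (d : Fin m → Bool) : Fin (m + 1) → Bool := Fin.cons true d

/-- the reflection -/
def SG_F {m : ℕ} (d : Fin m → Bool) (x : Fin (m + 1) → ℝ) : Fin (m + 1) → ℝ :=
  fun i => if SG_e d i then x i else - x i

theorem SG_meas (m : ℕ) (r : ℝ) : MeasurableSet (Cp m r) := by
  have h : Cp m r = (⋂ i, {x | 0 < x i}) ∩ ({x | ∑ i, x i ≤ r} ∩ {x | 1 < x 0}) := by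
    ext x
    simp [Cp]
  rw [h]
  refine MeasurableSet.inter (MeasurableSet.iInter fun i => ?_) (MeasurableSet.inter ?_ ?_)
  · exact measurableSet_lt measurable_const (measurable_pi_apply i)
  · exact measurableSet_le (Finset.measurable_sum _ fun i _ => measurable_pi_apply i)
      measurable_const
  · exact measurableSet_lt measurable_const (measurable_pi_apply 0)

theorem SG_disj {m : ℕ} {r : ℝ} {d d' : Fin m → Bool} {x : Fin (m + 1) → ℝ}
    (h : SG_F d x ∈ Cp m r) (h' : SG_F d' x ∈ Cp m r) : d = d' := by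
  funext i
  have h1 := h.1 i.succ
  have h2 := h'.1 i.succ
  unfold SG_F SG_e at h1 h2
  rw [Fin.cons_succ] at h1 h2
  cases hd : d i <;> cases hd' : d' i <;> rw [hd] at h1 <;> rw [hd'] at h2 <;> simp at h1 h2 ⊢ <;>
    linarith

theorem SG_sub {m : ℕ} {r : ℝ} (d : Fin m → Bool) : SG_F d ⁻¹' Cp m r ⊆ C m r := by
  intro x hx
  have hx' : SG_F d x ∈ Cp m r := hx
  have h0 : ∀ i, |x i| = SG_F d x i := by
    intro i
    have h := hx'.1 i
    unfold SG_F at h ⊢
    cases he : SG_e d i <;> rw [he] at h <;> simp at h ⊢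
    · exact h.le
    · exact h.le
  refine ⟨?_, ?_⟩
  · rw [Finset.sum_congr rfl fun i _ => h0 i]
    exact hx'.2.1
  · have h := hx'.2.2
    unfold SG_F SG_e at h
    rw [Fin.cons_zero] at h
    simpa using h

theorem p_SG (hFL : S_FL) : S_SG := by
  intro m r
  have hmp : ∀ d : Fin m → Bool, MeasurePreserving (SG_F d) volume volume := fun d =>
    hFL m (SG_e d)
  have h1 : ∀ d : Fin m → Bool, volume (SG_F d ⁻¹' Cp m r) = volume (Cp m r) := fun d =>
    (hmp d).measure_preimage (SG_meas m r).nullMeasurableSet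
  have h2 : volume (⋃ d : Fin m → Bool, SG_F d ⁻¹' Cp m r) =
      ∑' d : Fin m → Bool, volume (SG_F d ⁻¹' Cp m r) := by
    refine measure_iUnion ?_ fun d => (hmp d).measurable (SG_meas m r)
    intro d d' hne
    rw [Function.onFun, Set.disjoint_left]
    intro x hx hx'
    exact hne (SG_disj hx hx')
  have h3 : ∑' d : Fin m → Bool, volume (SG_F d ⁻¹' Cp m r) = 2 ^ m * volume (Cp m r) := by
    rw [tsum_fintype, Finset.sum_congr rfl fun d _ => h1 d, Finset.sum_const, Finset.card_univ,
      Fintype.card_fun, Fintype.card_bool, Fintype.card_fin, nsmul_eq_mul]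
    push_cast
    rfl
  rw [← h3, ← h2]
  exact measure_mono (Set.iUnion_subset fun d => SG_sub d)

end Pool.CP3
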