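import Pool.Agent.Work.MP_1c7b0d_cp.Interface

set_option autoImplicit false

/-! # Block SG, second copy (helper33) -/

namespace Pool.CP3

open MeasureTheory

namespace XSGx

/-- the change of signs -/
def F (m : ℕ) (d : Fin m → Bool) (x : Fin (m + 1) → ℝ) : Fin (m + 1) → ℝ :=
  fun i => if (Fin.cons true d : Fin (m + 1) → Bool) i then x i else - x i

theorem meas (m : ℕ) (r : ℝ) : MeasurableSet (Cp m r) := by
  have h1 : MeasurableSet {x : Fin (m + 1) → ℝ | ∀ i, 0 < x i} := by
    have : {x : Fin (m + 1) → ℝ | ∀ i, 0 < x i} = ⋂ i, {x : Fin (m + 1) → ℝ | 0 < x i} := by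
      ext x
      simp
    rw [this]
    exact MeasurableSet.iInter fun i => measurableSet_lt measurable_const (measurable_pi_apply i)
  have h2 : MeasurableSet {x : Fin (m + 1) → ℝ | ∑ i, x i ≤ r} :=
    measurableSet_le (Finset.measurable_sum _ fun i _ => measurable_pi_apply i) measurable_const
  have h3 : MeasurableSet {x : Fin (m + 1) → ℝ | 1 < x 0} :=
    measurableSet_lt measurable_const (measurable_pi_apply 0)
  exact h1.inter (h2.inter h3)

theorem sgn (m : ℕ) (r : ℝ) (d : Fin m → Bool) (x : Fin (m + 1) → ℝ) (h : F m d x ∈ Cp m r) (i : Fin m) :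
    d i = true ↔ 0 < x i.succ := by
  have h1 := h.1 i.succ
  have h2 : F m d x i.succ = if d i then x i.succ else - x i.succ := by
    unfold F
    rw [Fin.cons_succ]
  rw [h2] at h1
  by_cases hd : d i = true
  · rw [if_pos hd] at h1
    exact ⟨fun _ => h1, fun _ => hd⟩
  · rw [if_neg hd] at h1
    exact ⟨fun h => absurd h hd, fun h => absurd h (by linarith)⟩

end XSGx

theorem p_SGx (hFL : S_FL) : S_SG := by
  intro m r
  have hm := XSGx.meas m r
  have hF : ∀ d, volume (XSGx.F m d ⁻¹' Cp m r) = volume (Cp m r) := fun d =>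
    (hFL m (Fin.cons true d)).measure_preimage hm.nullMeasurableSet
  have hmS : ∀ d, MeasurableSet (XSGx.F m d ⁻¹' Cp m r) := fun d =>
    (hFL m (Fin.cons true d)).measurable hm
  have hdisj : Pairwise fun d d' => Disjoint (XSGx.F m d ⁻¹' Cp m r) (XSGx.F m d' ⁻¹' Cp m r) := by
    intro d d' hne
    rw [Set.disjoint_left]
    intro x hx hx'
    apply hne
    funext i
    have h1 := XSGx.sgn m r d x hx i
    have h2 := XSGx.sgn m r d' x hx' i
    have h3 : d i = true ↔ d' i = true := h1.trans h2.symm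
    cases hd : d i <;> cases hd' : d' i <;> simp_all
  have hsub : (⋃ d, XSGx.F m d ⁻¹' Cp m r) ⊆ C m r := by
    intro x hx
    rw [Set.mem_iUnion] at hx
    obtain ⟨d, hd⟩ := hx
    have hd' : XSGx.F m d x ∈ Cp m r := hd
    have h0 : XSGx.F m d x 0 = x 0 := by
      unfold XSGx.F
      rw [Fin.cons_zero]
      rfl
    refine ⟨?_, ?_⟩
    · refine le_trans (Finset.sum_le_sum fun i _ => ?_) hd'.2.1
      have h1 := hd'.1 i
      have h2 : |x i| = |XSGx.F m d x i| := by
        unfold XSGx.F
        split_ifs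
        · rfl
        · rw [abs_neg]
      rw [h2, abs_of_pos h1]
    · have h1 := hd'.2.2
      rwa [h0] at h1
  calc (2 : ENNReal) ^ m * volume (Cp m r)
      = ∑ d : Fin m → Bool, volume (XSGx.F m d ⁻¹' Cp m r) := by
        simp only [hF, Finset.sum_const, Finset.card_univ, Fintype.card_fun, Fintype.card_bool,
          Fintype.card_fin, nsmul_eq_mul, Nat.cast_pow, Nat.cast_ofNat]
    _ = volume (⋃ d, XSGx.F m d ⁻¹' Cp m r) := by
        rw [measure_iUnion hdisj hmS, tsum_fintype]
    _ ≤ volume (C m r) := measure_mono hsub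

end Pool.CP3
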