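import Pool.Agent.Work.MP_1c7b0d_cp.Interface

set_option autoImplicit false

namespace Pool.CP3

open MeasureTheory

theorem p_SUB : S_SUB := by
  intro m r _ x hx
  obtain ⟨hx0, hx1⟩ := hx
  by_cases hs : ∑ i, x i ≤ r
  · left
    refine ⟨?_, fun hC => absurd hC.2 (not_lt.2 hx0)⟩
    show ∑ i, |x i| ≤ r
    by_cases he : (fun i => decide (0 ≤ x i)) = (fun _ : Fin (m + 1) => true)
    · have h1 : ∀ i, |x i| = x i := by
        intro i
        have h2 := congrFun he i
        simp only [decide_eq_true_eq] at h2
        exact abs_of_nonneg h2
      simp only [h1]
      exact hs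
    · have h1 := hx1 _ he
      refine le_of_eq_of_le (Finset.sum_congr rfl fun i _ => ?_) h1
      by_cases h3 : 0 ≤ x i
      · simp [h3, abs_of_nonneg h3]
      · simp [h3, abs_of_neg (not_le.1 h3)]
  · right
    refine ⟨not_le.1 hs, fun i => ?_⟩
    have hne : Function.update (fun _ : Fin (m + 1) => true) i false ≠ (fun _ => true) := by
      intro h
      have h2 := congrFun h i
      simp at h2
    have h1 := hx1 _ hne
    have h2 : ∑ j, (if Function.update (fun _ : Fin (m + 1) => true) i false j then x j else - x j) =
        (∑ j, x j) - 2 * x i := by
      have h3 : ∀ j, (if Function.update (fun _ : Fin (m + 1) => true) i false j then x j else - x j) =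
          x j - (if j = i then 2 * x i else 0) := by
        intro j
        by_cases hj : j = i
        · subst hj
          simp
          ring
        · simp [hj]
      simp only [h3]
      rw [Finset.sum_sub_distrib]
      simp
    rw [h2] at h1
    exact h1

end Pool.CP3
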