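import Pool.Agent.Work.MP_1c7b0d_cp.Interface

/-! Block VW (helper94). -/

set_option autoImplicit false

namespace Pool.CP3

open MeasureTheory

theorem VW_meas (m : ℕ) (r : ℝ) : MeasurableSet (C m r) := by
  have h1 : MeasurableSet {x : Fin (m + 1) → ℝ | ∑ i, |x i| ≤ r} := by
    refine (isClosed_le ?_ continuous_const).measurableSet
    exact continuous_finsetSum _ fun i _ => (continuous_apply i).abs
  have h2 : MeasurableSet {x : Fin (m + 1) → ℝ | 1 < x 0} :=
    (isOpen_lt continuous_const (continuous_apply 0)).measurableSet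
  exact h1.inter h2

theorem p_VW (hML : S_ML) (hSUB : S_SUB) (hPO : S_PO) : S_VW := by
  intro m hm
  have hr : 0 < Real.sqrt ((m : ℝ) + 1) := Real.sqrt_pos.2 (by positivity)
  obtain ⟨r, hrd⟩ : ∃ r : ℝ, r = Real.sqrt ((m : ℝ) + 1) := ⟨_, rfl⟩
  have h1 := hML m hm
  rw [← hrd] at h1 hr ⊢
  have h2 : volume (W m r) ≤ volume (A m r \ C m r) + volume (R m r) :=
    (measure_mono (hSUB m r (by omega))).trans (measure_union_le _ _)
  have hfin : volume (A m r \ C m r) ≠ ⊤ :=
    ne_top_of_le_ne_top (hPO m r hr).2.2.ne (measure_mono Set.diff_subset)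
  have hCA : A m r ∩ C m r = C m r := Set.inter_eq_right.2 fun x hx => hx.1
  have h3 : volume (A m r \ C m r) + volume (C m r) = volume (A m r) := by
    have h4 := measure_diff_add_inter (μ := volume) (A m r) (VW_meas m r)
    rwa [hCA] at h4
  calc volume (W m r) ≤ volume (A m r \ C m r) + volume (R m r) := h2
    _ < volume (A m r \ C m r) + volume (C m r) := ENNReal.add_lt_add_left hfin h1
    _ = volume (A m r) := h3

end Pool.CP3
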