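import Pool.Agent.Work.MP_1c7b0d_cp.Interface

set_option autoImplicit false

namespace Pool.CP3

open MeasureTheory Pool.Agent.Work.MP_1c7b0d_gt

/-- The new normals. -/
noncomputable def WI_n (m : ℕ) (e : Fin (m + 1) → Bool) : EuclideanSpace ℝ (Fin (m + 1)) :=
  if e = (fun _ => true) then EuclideanSpace.single 0 1
  else WithLp.toLp 2 (fun i => (if e i then (1 : ℝ) else -1) / Real.sqrt ((m : ℝ) + 1))

theorem WI_sq (m : ℕ) : Real.sqrt ((m : ℝ) + 1) ^ 2 = m + 1 := Real.sq_sqrt (by positivity)

theorem WI_pos (m : ℕ) : 0 < Real.sqrt ((m : ℝ) + 1) := Real.sqrt_pos.2 (by positivity)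

theorem WI_norm (m : ℕ) (e : Fin (m + 1) → Bool) : ‖WI_n m e‖ = 1 := by
  unfold WI_n
  split_ifs with h
  · simp
  · rw [EuclideanSpace.norm_eq, Real.sqrt_eq_one]
    have h1 : ∀ i : Fin (m + 1), ‖(if e i then (1 : ℝ) else -1) / Real.sqrt ((m : ℝ) + 1)‖ ^ 2 =
        1 / ((m : ℝ) + 1) := by
      intro i
      rw [Real.norm_eq_abs, sq_abs, div_pow, WI_sq]
      split_ifs <;> norm_num
    have h2 : (m : ℝ) + 1 ≠ 0 := by positivity
    simp only [h1, Finset.sum_const, Finset.card_univ, Fintype.card_fin, nsmul_eq_mul]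
    push_cast
    field_simp

theorem WI_inj (m : ℕ) (hm : 1 ≤ m) : Function.Injective (WI_n m) := by
  have hr := WI_pos m
  have key : ∀ e : Fin (m + 1) → Bool, e ≠ (fun _ => true) → WI_n m (fun _ => true) ≠ WI_n m e := by
    intro e he h
    have h1 := congrArg (fun x : EuclideanSpace ℝ (Fin (m + 1)) => x ⟨1, by omega⟩) h
    simp only [WI_n, if_neg he, if_true] at h1
    rw [EuclideanSpace.single_apply, if_neg (by
      intro h2
      have := congrArg Fin.val h2
      simp at this)] at h1
    rw [eq_comm, div_eq_zero_iff] at h1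
    rcases h1 with h1 | h1
    · split_ifs at h1 <;> norm_num at h1
    · exact hr.ne' h1
  intro e e' h
  by_cases he : e = (fun _ => true)
  · by_cases he' : e' = (fun _ => true)
    · rw [he, he']
    · exact absurd (he ▸ h) (key e' he')
  · by_cases he' : e' = (fun _ => true)
    · exact absurd (he' ▸ h.symm) (key e he)
    · funext i
      have h1 := congrArg (fun x : EuclideanSpace ℝ (Fin (m + 1)) => x i) h
      simp only [WI_n, if_neg he, if_neg he'] at h1
      have h2 := (div_left_inj' hr.ne').1 h1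
      cases h3 : e i <;> cases h4 : e' i <;> simp [h3, h4] at h2 ⊢ <;> norm_num at h2

theorem WI_ball (m : ℕ) (x : EuclideanSpace ℝ (Fin (m + 1))) :
    (∀ e, inner ℝ (WI_n m e) x ≤ 1) ↔ WithLp.ofLp x ∈ W m (Real.sqrt ((m : ℝ) + 1)) := by
  have hr := WI_pos m
  constructor
  · intro h
    refine ⟨?_, ?_⟩
    · have h1 := h (fun _ => true)
      simp only [WI_n, if_true] at h1
      rw [EuclideanSpace.inner_single_left] at h1
      simpa using h1
    · intro e he
      have h1 := h e
      simp only [WI_n, if_neg he] at h1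
      rw [PiLp.inner_apply] at h1
      simp only [RCLike.inner_apply, conj_trivial] at h1
      have h2 : ∑ i, x i * ((if e i then (1 : ℝ) else -1) / Real.sqrt ((m : ℝ) + 1)) =
          (∑ i, (if e i then x i else - x i)) / Real.sqrt ((m : ℝ) + 1) := by
        rw [Finset.sum_div]
        refine Finset.sum_congr rfl fun i _ => ?_
        split_ifs <;> ring
      rw [h2, div_le_one hr] at h1
      exact h1
  · rintro ⟨h0, h⟩ e
    by_cases he : e = (fun _ => true)
    · rw [he]
      simp only [WI_n, if_true]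
      rw [EuclideanSpace.inner_single_left]
      simpa using h0
    · simp only [WI_n, if_neg he]
      rw [PiLp.inner_apply]
      simp only [RCLike.inner_apply, conj_trivial]
      have h2 : ∑ i, x i * ((if e i then (1 : ℝ) else -1) / Real.sqrt ((m : ℝ) + 1)) =
          (∑ i, (if e i then x i else - x i)) / Real.sqrt ((m : ℝ) + 1) := by
        rw [Finset.sum_div]
        refine Finset.sum_congr rfl fun i _ => ?_
        split_ifs <;> ring
      rw [h2, div_le_one hr]
      exact h e he

/-- The new normals are distinct unit vectors and give a smaller volume. -/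
def S_WI : Prop := ∀ m : ℕ, 4 ≤ m → ∃ w : Fin (2 ^ (m + 1)) → EuclideanSpace ℝ (Fin (m + 1)),
  Function.Injective w ∧ (∀ i, ‖w i‖ = 1) ∧ volume (circ w) <
    volume {x : EuclideanSpace ℝ (Fin (m + 1)) | ∑ i, |x i| ≤ Real.sqrt ((m : ℝ) + 1)}

theorem WI_vol (m : ℕ) (S : Set (Fin (m + 1) → ℝ)) :
    volume {x : EuclideanSpace ℝ (Fin (m + 1)) | WithLp.ofLp x ∈ S} = volume S := by
  have h := EuclideanSpace.volume_preserving_symm_measurableEquiv_toLp (Fin (m + 1))
  have h1 := h.measure_preimage_equiv S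
  exact h1

theorem p_WI (hVW : S_VW) : S_WI := by
  intro m hm
  have hcard : Fintype.card (Fin (m + 1) → Bool) = 2 ^ (m + 1) := by simp
  let E : (Fin (m + 1) → Bool) ≃ Fin (2 ^ (m + 1)) := Fintype.equivFinOfCardEq hcard
  refine ⟨fun i => WI_n m (E.symm i), (WI_inj m (by omega)).comp E.symm.injective,
    fun i => WI_norm m _, ?_⟩
  have h1 : circ (fun i => WI_n m (E.symm i)) =
      {x : EuclideanSpace ℝ (Fin (m + 1)) | WithLp.ofLp x ∈ W m (Real.sqrt ((m : ℝ) + 1))} := by
    ext x
    rw [Set.mem_setOf_eq, ← WI_ball]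
    constructor
    · intro h e
      have := h (E e)
      simpa using this
    · intro h i
      exact h (E.symm i)
  have h2 : {x : EuclideanSpace ℝ (Fin (m + 1)) | ∑ i, |x i| ≤ Real.sqrt ((m : ℝ) + 1)} =
      {x : EuclideanSpace ℝ (Fin (m + 1)) | WithLp.ofLp x ∈ A m (Real.sqrt ((m : ℝ) + 1))} := rfl
  rw [h1, h2, WI_vol, WI_vol]
  exact hVW m hm

end Pool.CP3
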