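import Pool.Agent.Work.MP_1c7b0d_cp.Interface
set_option autoImplicit false

/-! Block WQ (helper43). -/

namespace Pool.CP3

open MeasureTheory

open scoped Classical in
theorem p_WQ (hVW : S_VW) : S_WQ := by
  intro m hm
  have hcard : Fintype.card (Fin (m + 1) → Bool) = 2 ^ (m + 1) := by simp
  let E : Fin (2 ^ (m + 1)) ≃ (Fin (m + 1) → Bool) := (Fintype.equivFinOfCardEq hcard).symm
  set r : ℝ := Real.sqrt ((m : ℝ) + 1) with hr
  have hr2 : r ^ 2 = (m : ℝ) + 1 := Real.sq_sqrt (by positivity)
  have hrpos : 0 < r := Real.sqrt_pos.2 (by positivity)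
  let w : Fin (2 ^ (m + 1)) → EuclideanSpace ℝ (Fin (m + 1)) := fun i =>
    if E i = (fun _ => true) then EuclideanSpace.single 0 (1 : ℝ)
    else WithLp.toLp 2 (fun j => if E i j then 1 / r else - (1 / r))
  have hw1 : ∀ i, E i = (fun _ => true) → w i = EuclideanSpace.single 0 (1 : ℝ) := fun i hi => if_pos hi
  have hw2 : ∀ i, E i ≠ (fun _ => true) → w i = WithLp.toLp 2 (fun j => if E i j then 1 / r else - (1 / r)) :=
    fun i hi => if_neg hi
  have hset : Pool.Agent.Work.MP_1c7b0d_gt.circ w = (fun x : EuclideanSpace ℝ (Fin (m + 1)) => x.ofLp) ⁻¹' (W m r) := by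
    ext x
    have hin : ∀ e : Fin (m + 1) → Bool, (inner ℝ (WithLp.toLp 2 (fun j => if e j then 1 / r else - (1 / r)) :
        EuclideanSpace ℝ (Fin (m + 1))) x ≤ 1 ↔ ∑ i, (if e i then x.ofLp i else - x.ofLp i) ≤ r) := by
      intro e
      have h1 : inner ℝ (WithLp.toLp 2 (fun j => if e j then 1 / r else - (1 / r)) : EuclideanSpace ℝ (Fin (m + 1))) x =
          (∑ i, (if e i then x.ofLp i else - x.ofLp i)) / r := by
        rw [PiLp.inner_apply, Finset.sum_div]
        refine Finset.sum_congr rfl fun i _ => ?_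
        by_cases he : e i
        · simp [he]
          ring
        · simp [he]
          ring
      rw [h1, div_le_one hrpos]
    show (∀ i, inner ℝ (w i) x ≤ 1) ↔ (x.ofLp 0 ≤ 1 ∧ ∀ e : Fin (m + 1) → Bool, e ≠ (fun _ => true) →
      ∑ i, (if e i then x.ofLp i else - x.ofLp i) ≤ r)
    constructor
    · intro h
      constructor
      · have h1 := h (E.symm (fun _ => true))
        rw [hw1 _ (E.apply_symm_apply _), EuclideanSpace.inner_single_left] at h1
        simpa using h1
      · intro e he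
        have h1 := h (E.symm e)
        rw [hw2 _ (by rw [E.apply_symm_apply]; exact he), E.apply_symm_apply] at h1
        exact (hin e).1 h1
    · rintro ⟨h0, h⟩ i
      by_cases hi : E i = (fun _ => true)
      · rw [hw1 i hi, EuclideanSpace.inner_single_left]
        simpa using h0
      · rw [hw2 i hi]
        exact (hin (E i)).2 (h (E i) hi)
  have hset2 : {x : EuclideanSpace ℝ (Fin (m + 1)) | ∑ i, |x i| ≤ r} =
      (fun x : EuclideanSpace ℝ (Fin (m + 1)) => x.ofLp) ⁻¹' (A m r) := rfl
  have hmp := EuclideanSpace.volume_preserving_symm_measurableEquiv_toLp (Fin (m + 1))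
  refine ⟨w, fun i => ?_, ?_⟩
  · by_cases hi : E i = (fun _ => true)
    · rw [hw1 i hi]
      simp
    · rw [hw2 i hi, EuclideanSpace.norm_eq]
      have h1 : ∀ j : Fin (m + 1), ‖(if E i j then 1 / r else - (1 / r) : ℝ)‖ ^ 2 = 1 / ((m : ℝ) + 1) := by
        intro j
        by_cases hj : E i j
        · rw [if_pos hj, Real.norm_eq_abs, sq_abs, div_pow, hr2, one_pow]
        · rw [if_neg hj, Real.norm_eq_abs, sq_abs, neg_sq, div_pow, hr2, one_pow]
      have h2 : ∑ j : Fin (m + 1), ‖(if E i j then 1 / r else - (1 / r) : ℝ)‖ ^ 2 = 1 := by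
        rw [Finset.sum_congr rfl (fun j _ => h1 j), Finset.sum_const, Finset.card_univ, Fintype.card_fin, nsmul_eq_mul]
        push_cast
        field_simp
      show Real.sqrt (∑ j : Fin (m + 1), ‖(if E i j then 1 / r else - (1 / r) : ℝ)‖ ^ 2) = 1
      rw [h2, Real.sqrt_one]
  · rw [hset2, hset]
    have e1 := hmp.measure_preimage_equiv (W m r)
    have e2 := hmp.measure_preimage_equiv (A m r)
    have h3 := hVW m hm
    rw [← hr] at h3
    calc volume ((fun x : EuclideanSpace ℝ (Fin (m + 1)) => x.ofLp) ⁻¹' (W m r)) = volume (W m r) := e1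
      _ < volume (A m r) := h3
      _ = volume ((fun x : EuclideanSpace ℝ (Fin (m + 1)) => x.ofLp) ⁻¹' (A m r)) := e2.symm

end Pool.CP3
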