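import Pool.Agent.Work.MP_1c7b0d_cp.Interface

set_option autoImplicit false

namespace Pool.CP3

open MeasureTheory

theorem p_WQh38 (hVW : S_VW) : S_WQ := by
  classical
  intro m hm
  have hr2 : Real.sqrt ((m : ℝ) + 1) ^ 2 = (m : ℝ) + 1 := Real.sq_sqrt (by positivity)
  have hr : 0 < Real.sqrt ((m : ℝ) + 1) := Real.sqrt_pos.2 (by positivity)
  obtain ⟨r, hrdef⟩ : ∃ r : ℝ, r = Real.sqrt ((m : ℝ) + 1) := ⟨_, rfl⟩
  have hvw := hVW m hm
  rw [← hrdef] at hr2 hr hvw ⊢
  have hcard : Fintype.card (Fin (m + 1) → Bool) = 2 ^ (m + 1) := by simp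
  let E : (Fin (m + 1) → Bool) ≃ Fin (2 ^ (m + 1)) := Fintype.equivFinOfCardEq hcard
  let g : (Fin (m + 1) → Bool) → EuclideanSpace ℝ (Fin (m + 1)) := fun e =>
    if e = (fun _ => true) then EuclideanSpace.single 0 1 else
      WithLp.toLp 2 (fun j => if e j then 1 / r else -(1 / r))
  have hg1 : ∀ e, ‖g e‖ = 1 := by
    intro e
    simp only [g]
    split_ifs with h
    · simp
    · rw [EuclideanSpace.norm_eq]
      have : ∀ j : Fin (m + 1), ‖(WithLp.toLp 2 (fun j => if e j then 1 / r else -(1 / r)) :
          EuclideanSpace ℝ (Fin (m + 1))) j‖ ^ 2 = 1 / r ^ 2 := by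
        intro j
        show ‖(if e j then 1 / r else -(1 / r))‖ ^ 2 = 1 / r ^ 2
        rw [Real.norm_eq_abs, sq_abs]
        split_ifs
        · rw [div_pow, one_pow]
        · rw [neg_sq, div_pow, one_pow]
      rw [Finset.sum_congr rfl (fun j _ => this j), Finset.sum_const, Finset.card_univ,
        Fintype.card_fin, hr2, nsmul_eq_mul]
      push_cast
      rw [mul_one_div, div_self (by positivity), Real.sqrt_one]
  have hin : ∀ (e : Fin (m + 1) → Bool) (x : EuclideanSpace ℝ (Fin (m + 1))),
      e ≠ (fun _ => true) → (inner ℝ (g e) x ≤ 1 ↔ ∑ i, (if e i then x i else - x i) ≤ r) := by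
    intro e x he
    simp only [g, if_neg he]
    have h1 : inner ℝ (WithLp.toLp 2 (fun j => if e j then 1 / r else -(1 / r)) :
        EuclideanSpace ℝ (Fin (m + 1))) x = (∑ i, (if e i then x i else - x i)) / r := by
      rw [PiLp.inner_apply, Finset.sum_div]
      apply Finset.sum_congr rfl
      intro i _
      show inner ℝ (if e i then 1 / r else -(1 / r)) (x i) = _
      have h2 : inner ℝ (if e i then 1 / r else -(1 / r)) (x i) = x i * (if e i then 1 / r else -(1 / r)) := by
        simp [inner]
      rw [h2]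
      split_ifs
      · ring
      · ring
    rw [h1, div_le_one hr]
  have hs : ∀ x : EuclideanSpace ℝ (Fin (m + 1)), inner ℝ (g (fun _ => true)) x = x 0 := by
    intro x
    have h1 : g (fun _ => true) = EuclideanSpace.single (0 : Fin (m + 1)) (1 : ℝ) := by
      simp only [g, if_true]
    rw [h1, EuclideanSpace.inner_single_left]
    simp
  refine ⟨fun i => g (E.symm i), fun i => hg1 _, ?_⟩
  have hc : Pool.Agent.Work.MP_1c7b0d_gt.circ (fun i => g (E.symm i)) =
      (WithLp.ofLp : EuclideanSpace ℝ (Fin (m + 1)) → (Fin (m + 1) → ℝ)) ⁻¹' (W m r) := by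
    ext x
    simp only [Pool.Agent.Work.MP_1c7b0d_gt.circ, W, Set.mem_ofPred_eq, Set.mem_preimage]
    constructor
    · intro h
      have h' : ∀ e, inner ℝ (g e) x ≤ 1 := by
        intro e
        have := h (E e)
        rwa [Equiv.symm_apply_apply] at this
      refine ⟨?_, fun e he => (hin e x he).1 (h' e)⟩
      have h2 := h' (fun _ => true)
      rw [hs x] at h2
      exact h2
    · rintro ⟨h0, h1⟩ i
      by_cases he : E.symm i = (fun _ => true)
      · rw [he, hs x]
        exact h0
      · exact (hin _ x he).2 (h1 _ he)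
  have hA : {x : EuclideanSpace ℝ (Fin (m + 1)) | ∑ i, |x i| ≤ r} =
      (WithLp.ofLp : EuclideanSpace ℝ (Fin (m + 1)) → (Fin (m + 1) → ℝ)) ⁻¹' (A m r) := rfl
  have hAm : MeasurableSet (A m r) := by
    apply IsClosed.measurableSet
    exact isClosed_le (by fun_prop) continuous_const
  have hWm : MeasurableSet (W m r) := by
    apply IsClosed.measurableSet
    have : W m r = {x | x 0 ≤ 1} ∩ ⋂ e : Fin (m + 1) → Bool, {x | e ≠ (fun _ => true) →
        ∑ i, (if e i then x i else - x i) ≤ r} := by
      ext x; simp [W]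
    rw [this]
    refine (isClosed_le (continuous_apply 0) continuous_const).inter (isClosed_iInter fun e => ?_)
    by_cases he : e = (fun _ => true)
    · simp [he]
    · simp only [ne_eq, he, not_false_eq_true, true_imp_iff]
      refine isClosed_le ?_ continuous_const
      refine continuous_finsetSum _ (fun i _ => ?_)
      split_ifs
      · exact continuous_apply i
      · exact (continuous_apply i).neg
  rw [hc, hA, (PiLp.volume_preserving_ofLp (Fin (m + 1))).measure_preimage hWm.nullMeasurableSet,
    (PiLp.volume_preserving_ofLp (Fin (m + 1))).measure_preimage hAm.nullMeasurableSet]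
  exact hvw

end Pool.CP3
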