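import Pool.Agent.Work.MP_1c7b0d_cp.Interface
set_option autoImplicit false

/-! WQ, second copy: the new normals. -/

namespace Pool.CP3

open MeasureTheory

theorem WQx_measW (m : ℕ) (r : ℝ) : MeasurableSet (W m r) := by
  have h : W m r = {x : Fin (m + 1) → ℝ | x 0 ≤ 1} ∩ ⋂ e : Fin (m + 1) → Bool,
      ⋂ (_ : e ≠ (fun _ => true)), {x : Fin (m + 1) → ℝ | ∑ i, (if e i then x i else - x i) ≤ r} := by
    ext x
    simp only [W, Set.mem_setOf_eq, Set.mem_inter_iff, Set.mem_iInter]
  rw [h]
  refine ((isClosed_le (continuous_apply 0) continuous_const).inter (isClosed_iInter fun e =>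
    isClosed_iInter fun _ => isClosed_le ?_ continuous_const)).measurableSet
  refine continuous_finset_sum _ fun i _ => ?_
  rcases he : e i with _ | _
  · simp only [Bool.false_eq_true, if_false]
    exact (continuous_apply i).neg
  · simp only [if_true]
    exact continuous_apply i

theorem WQx_measA (m : ℕ) (r : ℝ) : MeasurableSet (A m r) :=
  (isClosed_le (continuous_finset_sum _ fun i _ => (continuous_apply i).abs)
    continuous_const).measurableSet

theorem p_WQx (hVW : S_VW) : S_WQ := by
  classical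
  intro m hm
  have h := hVW m hm
  have hr2 : Real.sqrt ((m : ℝ) + 1) ^ 2 = (m : ℝ) + 1 := Real.sq_sqrt (by positivity)
  have hr0 : 0 < Real.sqrt ((m : ℝ) + 1) := Real.sqrt_pos.2 (by positivity)
  generalize Real.sqrt ((m : ℝ) + 1) = r at h hr2 hr0 ⊢
  obtain ⟨E⟩ : Nonempty ((Fin (m + 1) → Bool) ≃ Fin (2 ^ (m + 1))) :=
    ⟨Fintype.equivFinOfCardEq (by simp)⟩
  obtain ⟨v, hv⟩ : ∃ v : (Fin (m + 1) → Bool) → EuclideanSpace ℝ (Fin (m + 1)),
      ∀ e, v e = if e = (fun _ => true) then EuclideanSpace.single 0 1 else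
        WithLp.toLp 2 (fun i => (if e i then (1 : ℝ) else -1) / r) := ⟨_, fun e => rfl⟩
  have hnorm : ∀ e, ‖v e‖ = 1 := by
    intro e
    rw [hv]
    split_ifs with h1
    · simp
    · rw [EuclideanSpace.norm_eq]
      have h2 : ∀ i : Fin (m + 1), ‖(WithLp.toLp 2 (fun i => (if e i then (1 : ℝ) else -1) / r) :
          EuclideanSpace ℝ (Fin (m + 1))) i‖ ^ 2 = 1 / ((m : ℝ) + 1) := by
        intro i
        change ‖(if e i then (1 : ℝ) else -1) / r‖ ^ 2 = _
        rw [Real.norm_eq_abs, sq_abs, div_pow, hr2]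
        split_ifs <;> norm_num
      rw [Finset.sum_congr rfl fun i _ => h2 i]
      simp
      field_simp
  have hin : ∀ (e : Fin (m + 1) → Bool) (x : EuclideanSpace ℝ (Fin (m + 1))),
      inner ℝ (v e) x ≤ 1 ↔ (if e = (fun _ => true) then x 0 ≤ 1 else
        ∑ i, (if e i then x i else - x i) ≤ r) := by
    intro e x
    rw [hv]
    split_ifs with h1
    · rw [EuclideanSpace.inner_single_left]
      simp
    · rw [PiLp.inner_apply]
      have h2 : ∑ i, inner ℝ ((WithLp.toLp 2 (fun i => (if e i then (1 : ℝ) else -1) / r) :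
          EuclideanSpace ℝ (Fin (m + 1))) i) (x i) = (∑ i, (if e i then x i else - x i)) / r := by
        rw [Finset.sum_div]
        refine Finset.sum_congr rfl fun i _ => ?_
        change inner ℝ ((if e i then (1 : ℝ) else -1) / r) (x i) = _
        rw [real_inner_eq_re_inner, RCLike.inner_apply]
        split_ifs <;> simp <;> ring
      rw [h2, div_le_one hr0]
  refine ⟨fun i => v (E.symm i), fun i => hnorm _, ?_⟩
  have h1 : Pool.Agent.Work.MP_1c7b0d_gt.circ (fun i => v (E.symm i)) = WithLp.ofLp ⁻¹' (W m r) := by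
    ext x
    simp only [Pool.Agent.Work.MP_1c7b0d_gt.circ, Set.mem_setOf_eq, Set.mem_preimage, W]
    constructor
    · intro hx
      have hx' : ∀ e, inner ℝ (v e) x ≤ 1 := by
        intro e
        have := hx (E e)
        rwa [Equiv.symm_apply_apply] at this
      refine ⟨?_, fun e he => ?_⟩
      · have := (hin (fun _ => true) x).1 (hx' _)
        rwa [if_pos rfl] at this
      · have := (hin e x).1 (hx' e)
        rwa [if_neg he] at this
    · rintro ⟨hx1, hx2⟩ i
      rw [hin]
      split_ifs with h3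
      · exact hx1
      · exact hx2 _ h3
  have h2 : {x : EuclideanSpace ℝ (Fin (m + 1)) | ∑ i, |x i| ≤ r} = WithLp.ofLp ⁻¹' (A m r) := rfl
  rw [h1, h2, (PiLp.volume_preserving_ofLp (Fin (m + 1))).measure_preimage (WQx_measW m r).nullMeasurableSet,
    (PiLp.volume_preserving_ofLp (Fin (m + 1))).measure_preimage (WQx_measA m r).nullMeasurableSet]
  exact h

end Pool.CP3
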