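import Pool.Agent.Work.MP_1c7b0d_cp.Interface
import Pool.Agent.Work.MP_1c7b0d_cp.B_EQz

set_option autoImplicit false

namespace Pool.CP3

open MeasureTheory

theorem p_WQ (hVW : S_VW) : S_WQ := by
  intro m hm
  have h1 : 1 ≤ m + 1 := by omega
  have hd0 : (0 : ℝ) < ((m + 1 : ℕ) : ℝ) := by positivity
  have hs : (0 : ℝ) < Real.sqrt ((m + 1 : ℕ) : ℝ) := Real.sqrt_pos.2 hd0
  have hcast : ((m + 1 : ℕ) : ℝ) = (m : ℝ) + 1 := by push_cast; ring
  have hcard : Fintype.card (Fin (m + 1) → Bool) = 2 ^ (m + 1) := by simp
  let e : (Fin (m + 1) → Bool) ≃ Fin (2 ^ (m + 1)) := Fintype.equivFinOfCardEq hcard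
  let w : Fin (2 ^ (m + 1)) → EuclideanSpace ℝ (Fin (m + 1)) := fun j =>
    if e.symm j = (fun _ => true) then EuclideanSpace.single 0 (1 : ℝ)
    else EQz_v (m + 1) (e.symm j)
  refine ⟨w, fun j => ?_, ?_⟩
  · by_cases h : e.symm j = (fun _ => true)
    · have : w j = EuclideanSpace.single 0 (1 : ℝ) := if_pos h
      rw [this]
      simp
    · have : w j = EQz_v (m + 1) (e.symm j) := if_neg h
      rw [this]
      exact EQz_norm _ h1 _
  · have hc : Pool.Agent.Work.MP_1c7b0d_gt.circ w =
        (WithLp.ofLp : EuclideanSpace ℝ (Fin (m + 1)) → (Fin (m + 1) → ℝ)) ⁻¹'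
          W m (Real.sqrt ((m : ℝ) + 1)) := by
      ext x
      simp only [Pool.Agent.Work.MP_1c7b0d_gt.circ, W, Set.mem_setOf_eq, Set.mem_preimage]
      constructor
      · intro h
        refine ⟨?_, fun b hb => ?_⟩
        · have h2 := h (e (fun _ => true))
          have h3 : w (e (fun _ => true)) = EuclideanSpace.single 0 (1 : ℝ) :=
            if_pos (e.symm_apply_apply _)
          rw [h3, EuclideanSpace.inner_single_left] at h2
          simpa using h2
        · have h2 := h (e b)
          have h3 : w (e b) = EQz_v (m + 1) b := by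
            show (if e.symm (e b) = (fun _ => true) then _ else _) = _
            rw [e.symm_apply_apply, if_neg hb]
          rw [h3, EQz_inner, div_le_one hs, hcast] at h2
          exact h2
      · rintro ⟨h2, h3⟩ j
        by_cases h : e.symm j = (fun _ => true)
        · have h4 : w j = EuclideanSpace.single 0 (1 : ℝ) := if_pos h
          rw [h4, EuclideanSpace.inner_single_left]
          simpa using h2
        · have h4 : w j = EQz_v (m + 1) (e.symm j) := if_neg h
          rw [h4, EQz_inner, div_le_one hs, hcast]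
          exact h3 _ h
    have hA : {x : EuclideanSpace ℝ (Fin (m + 1)) | ∑ i, |x i| ≤ Real.sqrt ((m : ℝ) + 1)} =
        (WithLp.ofLp : EuclideanSpace ℝ (Fin (m + 1)) → (Fin (m + 1) → ℝ)) ⁻¹'
          A m (Real.sqrt ((m : ℝ) + 1)) := rfl
    have hmp := PiLp.volume_preserving_ofLp (Fin (m + 1))
    rw [hc, hA]
    have hWm : MeasurableSet (W m (Real.sqrt ((m : ℝ) + 1))) := by
      have : W m (Real.sqrt ((m : ℝ) + 1)) = {x | x 0 ≤ 1} ∩
          ⋂ b : Fin (m + 1) → Bool, {x | b ≠ (fun _ => true) →
            ∑ i, (if b i then x i else - x i) ≤ Real.sqrt ((m : ℝ) + 1)} := by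
        ext x
        simp [W]
      rw [this]
      refine MeasurableSet.inter (measurableSet_le (measurable_pi_apply 0) measurable_const) ?_
      refine MeasurableSet.iInter fun b => ?_
      by_cases hb : b = (fun _ => true)
      · simp [hb]
      · simp only [ne_eq, hb, not_false_eq_true, forall_true_left]
        refine measurableSet_le ?_ measurable_const
        refine Finset.measurable_sum _ fun i _ => ?_
        split_ifs
        · exact measurable_pi_apply i
        · exact (measurable_pi_apply i).neg
    have hAm : MeasurableSet (A m (Real.sqrt ((m : ℝ) + 1))) := by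
      refine measurableSet_le ?_ measurable_const
      refine Finset.measurable_sum _ fun i _ => ?_
      exact (measurable_pi_apply i).abs
    rw [hmp.measure_preimage hWm.nullMeasurableSet, hmp.measure_preimage hAm.nullMeasurableSet]
    exact hVW m hm

end Pool.CP3
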