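import Pool.Agent.Work.MP_1c7b0d_cp.Interface
import Pool.Agent.Work.MP_1c7b0d_cp.B_DET
import Pool.Agent.Work.MP_1c7b0d_cp.B_NUL
import Pool.Agent.Work.MP_1c7b0d_cp.B_RR
import Pool.Agent.Work.MP_1c7b0d_cp.B_CC
import Pool.Agent.Work.MP_1c7b0d_cp.B_FL
import Pool.Agent.Work.MP_1c7b0d_cp.B_SG
import Pool.Agent.Work.MP_1c7b0d_cp.B_NU
import Pool.Agent.Work.MP_1c7b0d_cp.B_PO
import Pool.Agent.Work.MP_1c7b0d_cp.B_MLx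
import Pool.Agent.Work.MP_1c7b0d_cp.B_SUB
import Pool.Agent.Work.MP_1c7b0d_cp.B_VW
import Pool.Agent.Work.MP_1c7b0d_cp.B_EQx
import Pool.Agent.Work.MP_1c7b0d_cp.B_WI

set_option autoImplicit false

namespace Pool.CP3

open MeasureTheory Pool.Agent.Work.MP_1c7b0d_gt

theorem final (d : ℕ) (hd : 5 ≤ d) : ∃ u w : Fin (2 ^ d) → EuclideanSpace ℝ (Fin d),
    Function.Injective u ∧ (∀ i, ‖u i‖ = 1) ∧ circ u = {x | ∑ i, |x i| ≤ Real.sqrt d} ∧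
    Function.Injective w ∧ (∀ i, ‖w i‖ = 1) ∧ volume (circ w) < volume (circ u) := by
  obtain ⟨m, rfl⟩ : ∃ m, d = m + 1 := ⟨d - 1, by omega⟩
  obtain ⟨u, hu1, hu2, hu3⟩ := p_EQx (m + 1) (by omega)
  obtain ⟨w, hw1, hw2, hw3⟩ := p_WI (p_VW (p_MLx (p_RR p_DET p_NUL) p_CC (p_SG p_FL) p_NU p_PO)
    p_SUB p_PO) m (by omega)
  refine ⟨u, w, hu1, hu2, hu3, hw1, hw2, ?_⟩
  rw [hu3]
  push_cast
  exact hw3

end Pool.CP3
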