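import Mathlib
import Pool.Agent.Work.MP_1c7b0d_gt.Defs

/-!
# The regular cross-polytope is not optimal in dimension at least 5 (MP_1c7b0d_gt)

d = m + 1 ≥ 5, r = sqrt d.  The cross-polytope A = {sum |x_i| ≤ r} is circumscribed about the unit
ball, with the 2^d facet normals eps / r.  Replace ONE normal, (1, ..., 1) / r, by e_0.  The new set W
is contained in (A and x_0 ≤ 1) union R, R = {sum x > r, sum x - 2 x_i ≤ r for all i}.
T = {x_i > 0, sum x ≤ r}.  vol R ≤ 2 / (d - 2) vol T (linear map), and A and x_0 > 1 contains 2^(d-1)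
reflected copies of (1 - 1/r) T + e_0.  So vol W < vol A since 2 / (d-2) < 2^(d-1) (1 - 1/r)^d.
-/

set_option autoImplicit false

namespace Pool.CP3

open MeasureTheory

/-- the positive part -/
def T (m : ℕ) (r : ℝ) : Set (Fin (m + 1) → ℝ) := {x | (∀ i, 0 < x i) ∧ ∑ i, x i ≤ r}

/-- the region beyond the facet that is removed -/
def R (m : ℕ) (r : ℝ) : Set (Fin (m + 1) → ℝ) :=
  {x | r < ∑ i, x i ∧ ∀ i, (∑ j, x j) - 2 * x i ≤ r}

/-- the cross-polytope -/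
def A (m : ℕ) (r : ℝ) : Set (Fin (m + 1) → ℝ) := {x | ∑ i, |x i| ≤ r}

/-- the cap cut off by the new facet -/
def C (m : ℕ) (r : ℝ) : Set (Fin (m + 1) → ℝ) := {x | ∑ i, |x i| ≤ r ∧ 1 < x 0}

/-- its positive part -/
def Cp (m : ℕ) (r : ℝ) : Set (Fin (m + 1) → ℝ) := {x | (∀ i, 0 < x i) ∧ ∑ i, x i ≤ r ∧ 1 < x 0}

/-- the new polytope -/
def W (m : ℕ) (r : ℝ) : Set (Fin (m + 1) → ℝ) :=
  {x | x 0 ≤ 1 ∧ ∀ e : Fin (m + 1) → Bool, e ≠ (fun _ => true) →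
    ∑ i, (if e i then x i else - x i) ≤ r}

/-- DET. `Matrix.det_one_add_replicateCol_mul_replicateRow` (or the like) with `u = -1/2`, `v = 1`:
the determinant is `1 - (m+1)/2`. -/
def S_DET : Prop := ∀ m : ℕ, 2 ≤ m →
  |((1 : Matrix (Fin (m + 1)) (Fin (m + 1)) ℝ) - Matrix.of (fun _ _ => (1 / 2 : ℝ))).det| =
    ((m : ℝ) - 1) / 2

/-- NUL. The hyperplanes `x i = 0` are null sets (`Measure.addHaar_submodule`, or the product). -/
def S_NUL : Prop := ∀ (m : ℕ) (r : ℝ),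
  volume {x : Fin (m + 1) → ℝ | (∀ i, 0 ≤ x i) ∧ ∑ i, x i ≤ r} ≤ volume (T m r)

/-- RR. `y_i = x_i - (∑ x) / 2 + r / 2` maps `R` into `{y ≥ 0, ∑ y ≤ r}`; linear part `1 - 11^T/2`, DET
(`Measure.addHaar_image_linearMap` for `Matrix.toLin'`, `measure_preimage_add`); then NUL. -/
def S_RR : Prop := ∀ (m : ℕ) (r : ℝ), 2 ≤ m → 0 < r →
  volume (R m r) ≤ ENNReal.ofReal (2 / ((m : ℝ) - 1)) * volume (T m r)

/-- CC. `x ↦ (1 - 1/r) x + e_0` (`Pi.single 0 1`) maps `T` into `Cp`; `Measure.addHaar_smul`,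
translation invariance. -/
def S_CC : Prop := ∀ (m : ℕ) (r : ℝ), 1 < r →
  ENNReal.ofReal ((1 - 1 / r) ^ (m + 1)) * volume (T m r) ≤ volume (Cp m r)

/-- FL. A change of signs preserves the volume (`volume_preserving_pi`, or determinant ±1). -/
def S_FL : Prop := ∀ (m : ℕ) (e : Fin (m + 1) → Bool),
  MeasurePreserving (fun (x : Fin (m + 1) → ℝ) i => if e i then x i else - x i) volume volume

/-- SG. The sets `{x | (flip (Fin.cons true d) x) ∈ Cp}`, `d : Fin m → Bool`, are disjoint, measurable,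
contained in `C` and have the measure of `Cp` (FL). -/
def S_SG : Prop := ∀ (m : ℕ) (r : ℝ), (2 : ENNReal) ^ m * volume (Cp m r) ≤ volume (C m r)

/-- NU. `m = 4`: `16 (1 - 1/√5)^5 > 0.82`. `m ≥ 5`: `1 - 1/√(m+1) > 1/2`, so the right side is
`> 1/2 ≥ 2/(m-1)`. -/
def S_NU : Prop := ∀ m : ℕ, 4 ≤ m →
  2 / ((m : ℝ) - 1) < 2 ^ m * (1 - 1 / Real.sqrt ((m : ℝ) + 1)) ^ (m + 1)

/-- PO. `T` contains a box; `A` is bounded. -/
def S_PO : Prop := ∀ (m : ℕ) (r : ℝ), 0 < r → 0 < volume (T m r) ∧ volume (T m r) < ⊤ ∧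
  volume (A m r) < ⊤

/-- ML. From RR, CC, SG, NU, PO. -/
def S_ML : Prop := ∀ m : ℕ, 4 ≤ m →
  volume (R m (Real.sqrt ((m : ℝ) + 1))) < volume (C m (Real.sqrt ((m : ℝ) + 1)))

/-- SUB. `W ⊆ (A ∩ {x 0 ≤ 1}) ∪ R`: if `∑ x ≤ r`, take the signs `e i = true` iff `0 ≤ x i`;
otherwise `e = update (fun _ => true) i false` gives `∑ x - 2 x_i ≤ r`. -/
def S_SUB : Prop := ∀ (m : ℕ) (r : ℝ), 1 ≤ m → W m r ⊆ (A m r \ C m r) ∪ R m r

/-- VW. `vol W ≤ vol (A \ C) + vol R < vol (A \ C) + vol C = vol A` (ML, SUB, PO; `C ⊆ A`, `C`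
measurable). -/
def S_VW : Prop := ∀ m : ℕ, 4 ≤ m →
  volume (W m (Real.sqrt ((m : ℝ) + 1))) < volume (A m (Real.sqrt ((m : ℝ) + 1)))

/-- EQ. The normals of the cross-polytope, for every `d ≥ 1` (`Fintype.equivFin` of `Fin d → Bool`,
card `2^d`; `EuclideanSpace.norm_eq`, `PiLp.inner_apply`). -/
def S_EQ : Prop := ∀ d : ℕ, 1 ≤ d → ∃ u : Fin (2 ^ d) → EuclideanSpace ℝ (Fin d),
  Function.Injective u ∧ (∀ i, ‖u i‖ = 1) ∧
  Pool.Agent.Work.MP_1c7b0d_gt.circ u = {x | ∑ i, |x i| ≤ Real.sqrt d}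

/-- WQ. The new normals: `circ w` is the preimage of `W` (`(1,...,1)/r` replaced by `e_0`);
`PiLp.volume_preserving_ofLp` (or `EuclideanSpace.volume_preserving_...`) on both sides of VW. -/
def S_WQ : Prop := ∀ m : ℕ, 4 ≤ m → ∃ w : Fin (2 ^ (m + 1)) → EuclideanSpace ℝ (Fin (m + 1)),
  (∀ i, ‖w i‖ = 1) ∧ volume (Pool.Agent.Work.MP_1c7b0d_gt.circ w) <
    volume {x : EuclideanSpace ℝ (Fin (m + 1)) | ∑ i, |x i| ≤ Real.sqrt ((m : ℝ) + 1)}

end Pool.CP3
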